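import Pool.Agent.Helper97.RK.Stmts

set_option autoImplicit false

namespace Pool.Agent.Helper97.RK

open Polynomial

theorem rank_int (A B : ℤ) (x : ℚ) (h : x ^ 3 + (A : ℚ) * x + (B : ℚ) = 0) :
    ∃ z : ℤ, (z : ℚ) = x := by
  have hm : (X ^ 3 + C A * X + C B : ℤ[X]).Monic := by
    rw [add_assoc]
    apply monic_X_pow_add
    refine lt_of_le_of_lt (degree_linear_le) ?_
    norm_num
  have hr : aeval x (X ^ 3 + C A * X + C B : ℤ[X]) = 0 := by
    simp only [map_add, map_mul, map_pow, aeval_X, aeval_C]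
    simpa using h
  have hI : IsIntegral ℤ x := ⟨_, hm, by rw [← aeval_def]; exact hr⟩
  obtain ⟨z, hz⟩ := IsIntegrallyClosed.isIntegral_iff.1 hI
  exact ⟨z, by simpa using hz⟩

/-- no rational root if there is no root modulo `p` -/
theorem rank_noroot (A B : ℤ) (p : ℕ)
    (hno : ∀ t : ZMod p, t ^ 3 + (A : ZMod p) * t + (B : ZMod p) ≠ 0) (x : ℚ)
    (h : x ^ 3 + (A : ℚ) * x + (B : ℚ) = 0) : False := by
  obtain ⟨z, hz⟩ := rank_int A B x h
  have h6 : z ^ 3 + A * z + B = 0 := by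
    have : (z : ℚ) ^ 3 + (A : ℚ) * z + (B : ℚ) = 0 := by rw [hz]; exact h
    exact_mod_cast this
  apply hno (z : ZMod p)
  have h7 := congrArg (fun w : ℤ => (w : ZMod p)) h6
  simpa using h7

theorem rank_tor (A B : ℤ) (p : ℕ)
    (hno : ∀ t : ZMod p, t ^ 3 + (A : ZMod p) * t + (B : ZMod p) ≠ 0)
    (Q : ((cur A B).toAffine).Point) (hQ : Q + Q = 0) : Q = 0 := by
  rcases Q with _ | ⟨x, y, h⟩
  · rfl
  · exfalso
    have h1 := eq_neg_of_add_eq_zero_left hQ
    rw [WeierstrassCurve.Affine.Point.neg_some] at h1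
    injection h1 with h2 h3
    have h4 : y = 0 := by
      simp only [WeierstrassCurve.Affine.negY, cur] at h3
      linarith
    have h5 := h.left
    rw [WeierstrassCurve.Affine.equation_iff] at h5
    simp only [cur] at h5
    rw [h4] at h5
    exact rank_noroot A B p hno x (by linear_combination -h5)

theorem rank_ns (A B x y : ℤ) (h : y ^ 2 = x ^ 3 + A * x + B)
    (hD : 4 * A ^ 3 + 27 * B ^ 2 ≠ 0) :
    ((cur A B).toAffine).Nonsingular (x : ℚ) (y : ℚ) := by
  have hΔ : ((cur A B).toAffine).Δ ≠ 0 := by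
    have e : ((cur A B).toAffine).Δ = -16 * ((4 * A ^ 3 + 27 * B ^ 2 : ℤ) : ℚ) := by
      simp only [WeierstrassCurve.Δ, WeierstrassCurve.b₂, WeierstrassCurve.b₄,
        WeierstrassCurve.b₆, WeierstrassCurve.b₈, cur]
      push_cast
      ring
    rw [e]
    exact mul_ne_zero (by norm_num) (by exact_mod_cast hD)
  rw [← WeierstrassCurve.Affine.equation_iff_nonsingular_of_Δ_ne_zero hΔ,
    WeierstrassCurve.Affine.equation_iff]
  have hq : (y : ℚ) ^ 2 = (x : ℚ) ^ 3 + A * x + B := by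
    exact_mod_cast h
  simp only [cur, zero_mul, add_zero]
  linear_combination hq

theorem rank_sq {K : Type*} [Field K] {a b : K} (hb : b ≠ 0) (h : IsSquare (b * b * a)) :
    IsSquare a := by
  obtain ⟨c, hc⟩ := h
  refine ⟨c / b, ?_⟩
  field_simp
  linear_combination hc

theorem st_RANK (h1 : ST_HOM) (h2 : ST_PAD) (h3 : ST_LIN) : ST_RANK := by
  intro n A B x y hxy hD p hno hcert
  refine h3 _ (rank_tor A B p hno) n
    (fun i => WeierstrassCurve.Affine.Point.some (x i : ℚ) (y i : ℚ)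
      (rank_ns A B (x i) (y i) (hxy i) hD)) ?_
  intro S hS Q hQ
  obtain ⟨q, e, hq, he, hde, hns⟩ := hcert S hS
  have : Fact q.Prime := ⟨hq⟩
  obtain ⟨θ, hθ, hsq⟩ := h2 q A B e he hde
  have hrat : ∀ z : ℚ, algebraMap ℚ ℚ_[q] z ≠ θ := by
    intro z hz
    apply rank_noroot A B p hno z
    have h4 : ((z : ℚ) : ℚ_[q]) = θ := by
      rw [← hz]
      simp
    rw [← h4] at hθ
    exact_mod_cast hθ
  obtain ⟨φ, hφ0, hφx, hφn, hφm⟩ := h1 ℚ_[q] A B θ hθ hrat
  have key : ∀ T : Finset (Fin n), IsSquare (φ (∑ i ∈ T,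
      (WeierstrassCurve.Affine.Point.some (x i : ℚ) (y i : ℚ)
      (rank_ns A B (x i) (y i) (hxy i) hD))) * ∏ i ∈ T,
      φ (WeierstrassCurve.Affine.Point.some (x i : ℚ) (y i : ℚ)
      (rank_ns A B (x i) (y i) (hxy i) hD))) := by
    intro T
    induction T using Finset.induction_on with
    | empty =>
      simp [hφ0]
    | insert a T haT ih =>
      rw [Finset.sum_insert haT, Finset.prod_insert haT]
      have h5 := hφm (WeierstrassCurve.Affine.Point.some (x a : ℚ) (y a : ℚ)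
        (rank_ns A B (x a) (y a) (hxy a) hD)) (∑ i ∈ T,
        (WeierstrassCurve.Affine.Point.some (x i : ℚ) (y i : ℚ)
        (rank_ns A B (x i) (y i) (hxy i) hD)))
      have h6 := h5.mul ih
      apply rank_sq (hφn (∑ i ∈ T,
        (WeierstrassCurve.Affine.Point.some (x i : ℚ) (y i : ℚ)
        (rank_ns A B (x i) (y i) (hxy i) hD))))
      refine (congrArg IsSquare ?_).mp h6
      ring
  have h7 := key S
  rw [hQ] at h7
  have h8 : IsSquare (φ (Q + Q)) := rank_sq (hφn Q) (hφm Q Q)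
  have h9 : IsSquare (∏ i ∈ S, φ (WeierstrassCurve.Affine.Point.some (x i : ℚ) (y i : ℚ)
      (rank_ns A B (x i) (y i) (hxy i) hD))) := by
    apply rank_sq (hφn (Q + Q))
    refine (congrArg IsSquare ?_).mp (h8.mul h7)
    ring
  apply hns
  apply hsq n x S
  refine (congrArg IsSquare ?_).mp h9
  apply Finset.prod_congr rfl
  intro i _
  rw [hφx]
  simp

end Pool.Agent.Helper97.RK
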