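import Pool.Agent.Helper97.RK.Stmts

set_option autoImplicit false

namespace Pool.Agent.Helper97.RK

theorem cert_z (q : ℕ) (hq : (q : ℤ) ∣ MM) {a b : ℤ} (h : a ≡ b [ZMOD MM]) :
    (a : ZMod q) = (b : ZMod q) :=
  (ZMod.intCast_eq_intCast_iff a b q).2 (h.of_dvd hq)

theorem cert_mod {k p u v m : ℤ} (h : Good k p u v m) :
    k ≡ 2 [ZMOD MM] ∧ p ≡ 4 [ZMOD MM] ∧ u ≡ 1 [ZMOD MM] ∧ v ≡ 2 [ZMOD MM] ∧
      m ≡ -18 [ZMOD MM] := by
  obtain ⟨h1, h2, h3, h4, h5⟩ := h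
  refine ⟨(Int.modEq_iff_dvd.2 ?_).symm, (Int.modEq_iff_dvd.2 h2).symm,
    (Int.modEq_iff_dvd.2 h3).symm, (Int.modEq_iff_dvd.2 h4).symm,
    (Int.modEq_iff_dvd.2 ?_).symm⟩
  · exact h1
  · rwa [sub_neg_eq_add]

theorem cert_vals {k p u v m : ℤ} (h : Good k p u v m) :
    fA k p u v m ≡ -259 [ZMOD MM] ∧ fB k p u v m ≡ 734994 [ZMOD MM] ∧
    cX k (e2f u v m) ≡ 126 [ZMOD MM] ∧ rX k p (e2f u v m) u ≡ -5 [ZMOD MM] ∧
    rX k p (e2f u v m) v ≡ 85 [ZMOD MM] ∧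
    ∀ w : ℤ, w ≡ 3 [ZMOD MM] → rX k p (e2f u v m) w ≡ 211 [ZMOD MM] := by
  obtain ⟨h1, h2, h3, h4, h5⟩ := cert_mod h
  have e2 : e2f u v m ≡ -25 [ZMOD MM] := by
    have e : e2f u v m ≡ e2f 1 2 (-18) [ZMOD MM] := by
      unfold e2f
      exact (h5.add (h3.mul h4)).sub ((h3.add h4).pow 2)
    exact e
  have e3 : e3f u v m ≡ -60 [ZMOD MM] := by
    have e : e3f u v m ≡ e3f 1 2 (-18) [ZMOD MM] := by
      unfold e3f
      exact (h3.add h4).mul (h5.sub (h3.mul h4))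
    exact e
  have e4 : e4f u v m ≡ -36 [ZMOD MM] := by
    have e : e4f u v m ≡ e4f 1 2 (-18) [ZMOD MM] := by
      unfold e4f
      exact (h3.mul h4).mul h5
    exact e
  have eX : cX k (e2f u v m) ≡ 126 [ZMOD MM] := by
    have e : cX k (e2f u v m) ≡ cX 2 (-25) [ZMOD MM] := by
      unfold cX
      exact (Int.ModEq.refl (-6)).mul ((h1.pow 2).add e2)
    exact e
  have eY : cY k p (e3f u v m) ≡ 1644 [ZMOD MM] := by
    have e : cY k p (e3f u v m) ≡ cY 2 4 (-60) [ZMOD MM] := by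
      unfold cY
      exact (((Int.ModEq.refl 3).mul h1).mul h2).sub ((Int.ModEq.refl 27).mul e3)
    exact e
  have eA : fA k p u v m ≡ -259 [ZMOD MM] := by
    have e : fA k p u v m ≡ cA 2 4 (-25) (-36) [ZMOD MM] := by
      unfold fA cA
      exact (((h2.pow 2).add ((Int.ModEq.refl 324).mul e4)).add
        ((Int.ModEq.refl 27).mul (((h1.pow 2).add e2).pow 2))).neg
    exact e
  have eB : fB k p u v m ≡ 734994 [ZMOD MM] := by
    have e : fB k p u v m ≡ 1644 ^ 2 - 126 ^ 3 - (-259) * 126 [ZMOD MM] := by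
      unfold fB cB
      exact ((eY.pow 2).sub (eX.pow 3)).sub (eA.mul eX)
    exact e
  have eR : ∀ w w0 : ℤ, w ≡ w0 [ZMOD MM] →
      rX k p (e2f u v m) w ≡ rX 2 4 (-25) w0 [ZMOD MM] := by
    intro w w0 hw
    unfold rX
    exact (h2.add (((Int.ModEq.refl 18).mul hw).mul (hw.add h1))).add
      ((Int.ModEq.refl 3).mul ((h1.pow 2).add e2))
  exact ⟨eA, eB, eX, eR _ _ h3, eR _ _ h4, fun w hw => eR _ _ hw⟩

theorem cert_dec4 : ∀ S : Finset (Fin 4), S.Nonempty →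
    ¬ IsSquare (∏ i ∈ S, (((![126, -5, 85, 211] : Fin 4 → ℤ) i - 3 : ℤ) : ZMod 7)) ∨
    ¬ IsSquare (∏ i ∈ S, (((![126, -5, 85, 211] : Fin 4 → ℤ) i - 5 : ℤ) : ZMod 7)) ∨
    ¬ IsSquare (∏ i ∈ S, (((![126, -5, 85, 211] : Fin 4 → ℤ) i - 7 : ℤ) : ZMod 11)) ∨
    ¬ IsSquare (∏ i ∈ S, (((![126, -5, 85, 211] : Fin 4 → ℤ) i - 9 : ℤ) : ZMod 11)) := by
  decide +kernel

theorem cert_dec3 : ∀ S : Finset (Fin 3), S.Nonempty →
    ¬ IsSquare (∏ i ∈ S, (((![126, -5, 85] : Fin 3 → ℤ) i - 3 : ℤ) : ZMod 7)) ∨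
    ¬ IsSquare (∏ i ∈ S, (((![126, -5, 85] : Fin 3 → ℤ) i - 5 : ℤ) : ZMod 7)) ∨
    ¬ IsSquare (∏ i ∈ S, (((![126, -5, 85] : Fin 3 → ℤ) i - 7 : ℤ) : ZMod 11)) ∨
    ¬ IsSquare (∏ i ∈ S, (((![126, -5, 85] : Fin 3 → ℤ) i - 9 : ℤ) : ZMod 11)) := by
  decide +kernel

theorem cert_five (t : ZMod 5) : t ^ 3 + ((-259 : ℤ) : ZMod 5) * t + ((734994 : ℤ) : ZMod 5) ≠ 0 := by
  revert t
  decide

theorem cert_step (n : ℕ) (A B : ℤ) (x b : Fin n → ℤ) (hA : A ≡ -259 [ZMOD MM])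
    (hB : B ≡ 734994 [ZMOD MM]) (hx : ∀ i, x i ≡ b i [ZMOD MM]) (S : Finset (Fin n)) (q : ℕ)
    (e : ℤ) (hqp : q.Prime) (hq : (q : ℤ) ∣ MM)
    (h1 : ((e ^ 3 + (-259) * e + 734994 : ℤ) : ZMod q) = 0)
    (h2 : ((3 * e ^ 2 + (-259) : ℤ) : ZMod q) ≠ 0)
    (h3 : ¬ IsSquare (∏ i ∈ S, ((b i - e : ℤ) : ZMod q))) :
    ∃ (q : ℕ) (e : ℤ), q.Prime ∧
      ((e ^ 3 + A * e + B : ℤ) : ZMod q) = 0 ∧ ((3 * e ^ 2 + A : ℤ) : ZMod q) ≠ 0 ∧
      ¬ IsSquare (∏ i ∈ S, ((x i - e : ℤ) : ZMod q)) := by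
  refine ⟨q, e, hqp, ?_, ?_, ?_⟩
  · rw [← h1]
    exact cert_z q hq (((Int.ModEq.refl (e ^ 3)).add (hA.mul (Int.ModEq.refl e))).add hB)
  · intro h
    apply h2
    rw [← h]
    exact cert_z q hq (((Int.ModEq.refl (3 * e ^ 2)).add hA).symm)
  · intro h
    apply h3
    refine (congrArg IsSquare ?_).mp h
    apply Finset.prod_congr rfl
    intro i _
    exact cert_z q hq ((hx i).sub (Int.ModEq.refl e))

theorem cert_all (n : ℕ) (A B : ℤ) (x b : Fin n → ℤ) (hA : A ≡ -259 [ZMOD MM])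
    (hB : B ≡ 734994 [ZMOD MM]) (hx : ∀ i, x i ≡ b i [ZMOD MM]) (S : Finset (Fin n))
    (h : ¬ IsSquare (∏ i ∈ S, ((b i - 3 : ℤ) : ZMod 7)) ∨
    ¬ IsSquare (∏ i ∈ S, ((b i - 5 : ℤ) : ZMod 7)) ∨
    ¬ IsSquare (∏ i ∈ S, ((b i - 7 : ℤ) : ZMod 11)) ∨
    ¬ IsSquare (∏ i ∈ S, ((b i - 9 : ℤ) : ZMod 11))) :
    ∃ (q : ℕ) (e : ℤ), q.Prime ∧
      ((e ^ 3 + A * e + B : ℤ) : ZMod q) = 0 ∧ ((3 * e ^ 2 + A : ℤ) : ZMod q) ≠ 0 ∧
      ¬ IsSquare (∏ i ∈ S, ((x i - e : ℤ) : ZMod q)) := by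
  rcases h with h | h | h | h
  · exact cert_step n A B x b hA hB hx S 7 3 (by norm_num) (by unfold MM; norm_num) (by decide)
      (by decide) h
  · exact cert_step n A B x b hA hB hx S 7 5 (by norm_num) (by unfold MM; norm_num) (by decide)
      (by decide) h
  · exact cert_step n A B x b hA hB hx S 11 7 (by norm_num) (by unfold MM; norm_num) (by decide)
      (by decide) h
  · exact cert_step n A B x b hA hB hx S 11 9 (by norm_num) (by unfold MM; norm_num) (by decide)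
      (by decide) h

theorem st_CERT (h1 : ST_RANK) (h2 : ST_PTS) : ST_CERT := by
  intro k p u v m hG
  obtain ⟨hA, hB, hX, hu, hv, hw⟩ := cert_vals hG
  have hd5 : (5 : ℤ) ∣ MM := by unfold MM; norm_num
  have hdisc : 4 * fA k p u v m ^ 3 + 27 * fB k p u v m ^ 2 ≠ 0 := by
    intro h
    have h3 : 4 * fA k p u v m ^ 3 + 27 * fB k p u v m ^ 2 ≡
        4 * (-259) ^ 3 + 27 * 734994 ^ 2 [ZMOD 5] :=
      (((Int.ModEq.refl 4).mul ((hA.of_dvd hd5).pow 3)).add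
        ((Int.ModEq.refl 27).mul ((hB.of_dvd hd5).pow 2)))
    rw [h] at h3
    revert h3
    decide
  have hA0 : fA k p u v m ≠ 0 := by
    intro h
    have h3 := hA.of_dvd hd5
    rw [h] at h3
    revert h3
    decide
  have h5 : ∀ t : ZMod 5, t ^ 3 + (fA k p u v m : ZMod 5) * t + (fB k p u v m : ZMod 5) ≠ 0 := by
    intro t
    rw [cert_z 5 hd5 hA, cert_z 5 hd5 hB]
    exact cert_five t
  have ptX := (h2 k p (e2f u v m) (e3f u v m) (e4f u v m)).1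
  have ptR := (h2 k p (e2f u v m) (e3f u v m) (e4f u v m)).2
  have ru : u ^ 4 + e2f u v m * u ^ 2 - e3f u v m * u + e4f u v m = 0 := by
    unfold e2f e3f e4f
    ring
  have rv : v ^ 4 + e2f u v m * v ^ 2 - e3f u v m * v + e4f u v m = 0 := by
    unfold e2f e3f e4f
    ring
  refine ⟨hdisc, hA0, ?_, ?_, ?_⟩
  · intro q hq hlt hdv
    obtain ⟨ha, hb⟩ := hdv
    have hqM : (q : ℤ) ∣ MM := by
      unfold MM
      interval_cases q <;> first | (norm_num; done) | (exact absurd hq (by norm_num))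
    have ha' : (q : ℤ) ∣ -259 := (hA.of_dvd hqM).dvd_iff.1 ha
    have hb' : (q : ℤ) ∣ 734994 := (hB.of_dvd hqM).dvd_iff.1 hb
    have h1' : (q : ℤ) ∣ 1 := by
      have e2 : IsCoprime (-259 : ℤ) 734994 := by
        rw [Int.isCoprime_iff_gcd_eq_one]
        decide
      obtain ⟨a, b, hab⟩ := e2
      rw [← hab]
      exact dvd_add (ha'.mul_left a) (hb'.mul_left b)
    have h2' : q ∣ 1 := by exact_mod_cast h1'
    exact hq.one_lt.ne' (Nat.dvd_one.1 h2')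
  · refine h1 3 _ _ ![cX k (e2f u v m), rX k p (e2f u v m) u, rX k p (e2f u v m) v]
      ![cY k p (e3f u v m), rY k p (e2f u v m) (e3f u v m) u, rY k p (e2f u v m) (e3f u v m) v]
      ?_ hdisc 5 h5 ?_
    · intro i
      fin_cases i
      · exact ptX
      · exact ptR u ru
      · exact ptR v rv
    · intro S hS
      refine cert_all 3 _ _ _ ![126, -5, 85] hA hB ?_ S (cert_dec3 S hS)
      intro i
      fin_cases i
      · exact hX
      · exact hu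
      · exact hv
  · intro w hwM hm
    have rw' : w ^ 4 + e2f u v m * w ^ 2 - e3f u v m * w + e4f u v m = 0 := by
      unfold e2f e3f e4f
      rw [hm]
      ring
    have hw3 : w ≡ 3 [ZMOD MM] := (Int.modEq_iff_dvd.2 hwM).symm
    refine h1 4 _ _ ![cX k (e2f u v m), rX k p (e2f u v m) u, rX k p (e2f u v m) v,
        rX k p (e2f u v m) w]
      ![cY k p (e3f u v m), rY k p (e2f u v m) (e3f u v m) u, rY k p (e2f u v m) (e3f u v m) v,
        rY k p (e2f u v m) (e3f u v m) w]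
      ?_ hdisc 5 h5 ?_
    · intro i
      fin_cases i
      · exact ptX
      · exact ptR u ru
      · exact ptR v rv
      · exact ptR w rw'
    · intro S hS
      refine cert_all 4 _ _ _ ![126, -5, 85, 211] hA hB ?_ S (cert_dec4 S hS)
      intro i
      fin_cases i
      · exact hX
      · exact hu
      · exact hv
      · exact hw w hw3

end Pool.Agent.Helper97.RK
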