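import Pool.Agent.Helper97.RK.Stmts

set_option autoImplicit false

namespace Pool.Agent.Helper97.RK

open Polynomial

/-- the 2-descent map -/
def homPhi (K : Type) [Field K] [Algebra ℚ K] (A B : ℤ) (e : K) :
    ((cur A B).toAffine).Point → K
  | WeierstrassCurve.Affine.Point.zero => 1
  | WeierstrassCurve.Affine.Point.some x _ _ => algebraMap ℚ K x - e

theorem hom_key (K : Type) [Field K] [Algebra ℚ K] (A B : ℤ) (e : K)
    (he : e ^ 3 + (A : K) * e + (B : K) = 0) (x1 y1 x2 y2 : ℚ)
    (h1 : ((cur A B).toAffine).Nonsingular x1 y1) (h2 : ((cur A B).toAffine).Nonsingular x2 y2)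
    (hxy : ¬ (x1 = x2 ∧ y1 = ((cur A B).toAffine).negY x2 y2)) :
    IsSquare ((algebraMap ℚ K x1 - e) * (algebraMap ℚ K x2 - e) *
      (algebraMap ℚ K (((cur A B).toAffine).addX x1 x2
        (((cur A B).toAffine).slope x1 x2 y1 y2)) - e)) := by
  have h := WeierstrassCurve.Affine.addPolynomial_slope h1.left h2.left hxy
  generalize ((cur A B).toAffine).slope x1 x2 y1 y2 = L at *
  generalize ((cur A B).toAffine).addX x1 x2 L = x3 at *
  rw [WeierstrassCurve.Affine.addPolynomial_eq, neg_inj] at h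
  have h' := congrArg (Polynomial.aeval e) h
  simp only [Cubic.toPoly, cur, map_add, map_mul, map_sub, aeval_C, aeval_X, map_pow, map_neg,
    map_one, map_ofNat, map_intCast, zero_mul, sub_zero, add_zero, zero_sub,
    neg_zero, zero_add] at h'
  refine ⟨algebraMap ℚ K L * (e - algebraMap ℚ K x1) + algebraMap ℚ K y1, ?_⟩
  linear_combination h' - he

theorem st_HOM : ST_HOM := by
  intro K _ _ A B e he hrat
  have hne : ∀ P, homPhi K A B e P ≠ 0 := by
    intro P
    rcases P with _ | ⟨x, y, h⟩
    · exact one_ne_zero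
    · exact sub_ne_zero.2 (hrat x)
  refine ⟨homPhi K A B e, rfl, fun x y h => rfl, hne, ?_⟩
  intro P Q
  rcases P with _ | ⟨x1, y1, h1⟩
  · refine ⟨homPhi K A B e Q, ?_⟩
    have e1 : (WeierstrassCurve.Affine.Point.zero : ((cur A B).toAffine).Point) + Q = Q :=
      zero_add Q
    rw [e1]
    have e2 : homPhi K A B e WeierstrassCurve.Affine.Point.zero = 1 := rfl
    rw [e2, one_mul]
  · rcases Q with _ | ⟨x2, y2, h2⟩
    · refine ⟨homPhi K A B e (WeierstrassCurve.Affine.Point.some x1 y1 h1), ?_⟩
      have e1 : WeierstrassCurve.Affine.Point.some x1 y1 h1 +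
          (WeierstrassCurve.Affine.Point.zero : ((cur A B).toAffine).Point) =
          WeierstrassCurve.Affine.Point.some x1 y1 h1 := add_zero _
      rw [e1]
      have e2 : homPhi K A B e WeierstrassCurve.Affine.Point.zero = 1 := rfl
      rw [e2, mul_one]
    · by_cases hxy : x1 = x2 ∧ y1 = ((cur A B).toAffine).negY x2 y2
      · rw [WeierstrassCurve.Affine.Point.add_of_Y_eq hxy.1 hxy.2]
        refine ⟨algebraMap ℚ K x1 - e, ?_⟩
        have e2 : homPhi K A B e (0 : ((cur A B).toAffine).Point) = 1 := rfl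
        rw [e2, mul_one]
        change (algebraMap ℚ K x1 - e) * (algebraMap ℚ K x2 - e) = _
        rw [hxy.1]
      · rw [WeierstrassCurve.Affine.Point.add_some hxy]
        exact hom_key K A B e he x1 y1 x2 y2 h1 h2 hxy

end Pool.Agent.Helper97.RK
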