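import Pool.Agent.Helper97.RK.Stmts

set_option autoImplicit false

namespace Pool.Agent.Helper97.RK

theorem lin_split {G : Type} [AddCommGroup G] (n : ℕ) (P : Fin n → G) (g : Fin n → ℤ)
    (h : ∑ i, g i • P i = 0) :
    ∑ i ∈ Finset.univ.filter (fun i => g i % 2 = 1), P i =
      (-∑ i, (g i / 2) • P i) + (-∑ i, (g i / 2) • P i) := by
  have h1 : ∀ i, g i • P i = (g i / 2) • P i + (g i / 2) • P i +
      (if g i % 2 = 1 then P i else 0) := by
    intro i
    rw [← add_zsmul]
    split_ifs with h2
    · conv_lhs => rw [show g i = (g i / 2 + g i / 2) + 1 by omega]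
      rw [add_zsmul _ (g i / 2 + g i / 2) 1, one_zsmul]
    · conv_lhs => rw [show g i = (g i / 2 + g i / 2) by omega]
      rw [add_zero]
  rw [Finset.sum_congr rfl (fun i _ => h1 i), Finset.sum_add_distrib, Finset.sum_add_distrib] at h
  rw [Finset.sum_filter, ← neg_add]
  exact (neg_eq_of_add_eq_zero_right h).symm

theorem lin_ind {G : Type} [AddCommGroup G] (ht : ∀ g : G, g + g = 0 → g = 0) (n : ℕ)
    (P : Fin n → G)
    (hP : ∀ S : Finset (Fin n), S.Nonempty → ∀ Q : G, ∑ i ∈ S, P i ≠ Q + Q) :
    ∀ N : ℕ, ∀ g : Fin n → ℤ, ∑ i, (g i).natAbs ≤ N → ∑ i, g i • P i = 0 → ∀ i, g i = 0 := by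
  intro N
  induction N with
  | zero =>
    intro g hg _ i
    have h1 : (g i).natAbs ≤ ∑ i, (g i).natAbs :=
      Finset.single_le_sum (f := fun i => (g i).natAbs) (fun _ _ => Nat.zero_le _)
        (Finset.mem_univ i)
    omega
  | succ N ih =>
    intro g hg h0
    have hs := lin_split n P g h0
    by_cases hne : (Finset.univ.filter (fun i => g i % 2 = 1)).Nonempty
    · exact absurd hs (hP _ hne _)
    · have hev : ∀ i, g i = 2 * (g i / 2) := by
        intro i
        have h2 : ¬ (g i % 2 = 1) := by
          intro h2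
          exact hne ⟨i, Finset.mem_filter.2 ⟨Finset.mem_univ i, h2⟩⟩
        omega
      rw [Finset.not_nonempty_iff_eq_empty] at hne
      rw [hne, Finset.sum_empty, ← neg_add, eq_comm, neg_eq_zero] at hs
      have h3 := ht _ hs
      have h4 : ∑ i, (g i).natAbs = 2 * ∑ i, (g i / 2).natAbs := by
        rw [Finset.mul_sum]
        apply Finset.sum_congr rfl
        intro i _
        have := hev i
        omega
      have h5 := ih (fun i => g i / 2) (by omega) h3
      intro i
      have h6 := h5 i
      have h7 := hev i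
      omega

theorem st_LIN : ST_LIN := by
  intro G _ ht n P hP
  have hli : LinearIndependent ℤ P := by
    rw [Fintype.linearIndependent_iff]
    intro g hg
    exact lin_ind ht n P hP _ g le_rfl hg
  have h := hli.cardinal_le_rank
  rwa [Cardinal.mk_fin] at h

end Pool.Agent.Helper97.RK
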