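import Pool.Agent.Helper16.RK.CERT

set_option autoImplicit false

namespace Pool.Agent.Helper97.RK

theorem st_MULT : ST_MULT := by
  intro k p u v m k' p' u' v' m' hG hG' h1 h2 h3 h4 h5 h6
  obtain ⟨-, -, hX, hu, hv, -⟩ := cert_vals hG
  obtain ⟨-, -, gu, gv, -⟩ := cert_mod hG
  have hd5 : (5 : ℤ) ∣ MM := by unfold MM; norm_num
  have n1 : rX k p (e2f u v m) u - cX k (e2f u v m) ≠ 0 := by
    intro h
    have h7 := (hu.of_dvd hd5).sub (hX.of_dvd hd5)
    rw [h] at h7
    revert h7
    decide
  have n2 : rX k p (e2f u v m) v - cX k (e2f u v m) ≠ 0 := by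
    intro h
    have h7 := (hv.of_dvd hd5).sub (hX.of_dvd hd5)
    rw [h] at h7
    revert h7
    decide
  have n3 : u - v ≠ 0 := by
    intro h
    have h7 := (gu.of_dvd hd5).sub (gv.of_dvd hd5)
    rw [h] at h7
    revert h7
    decide
  have eu : u = u' := by
    unfold rY at h4
    rw [← h2, ← h3, ← h1] at h4
    have h8 : (u - u') * (rX k p (e2f u v m) u - cX k (e2f u v m)) = 0 := by linarith
    rcases mul_eq_zero.1 h8 with h | h
    · linarith
    · exact absurd h n1
  have ev : v = v' := by
    unfold rY at h6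
    rw [← h2, ← h5, ← h1] at h6
    have h8 : (v - v') * (rX k p (e2f u v m) v - cX k (e2f u v m)) = 0 := by linarith
    rcases mul_eq_zero.1 h8 with h | h
    · linarith
    · exact absurd h n2
  subst eu
  subst ev
  unfold rX at h3 h5
  unfold cX at h1
  have ek : k = k' := by
    have h8 : (k - k') * (u - v) = 0 := by linarith
    rcases mul_eq_zero.1 h8 with h | h
    · linarith
    · exact absurd h n3
  subst ek
  have ee : e2f u v m = e2f u v m' := by linarith
  rw [ee] at h3
  unfold e2f at ee
  exact ⟨rfl, by linarith, rfl, rfl, by linarith⟩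

end Pool.Agent.Helper97.RK
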