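import Pool.Agent.Helper97.RK.Stmts

set_option autoImplicit false

namespace Pool.Agent.Helper97.RK

open Polynomial

theorem st_PAD : ST_PAD := by
  intro q _ A B e he hde
  have h1 : aeval (e : ℤ_[q]) (X ^ 3 + C A * X + C B : ℤ[X]) =
      ((e ^ 3 + A * e + B : ℤ) : ℤ_[q]) := by
    simp
  have h2 : aeval (e : ℤ_[q]) (derivative (X ^ 3 + C A * X + C B : ℤ[X])) =
      ((3 * e ^ 2 + A : ℤ) : ℤ_[q]) := by
    simp [map_ofNat]
  have n1 : ‖((e ^ 3 + A * e + B : ℤ) : ℤ_[q])‖ < 1 :=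
    (PadicInt.norm_int_lt_one_iff_dvd _).2 ((ZMod.intCast_zmod_eq_zero_iff_dvd _ q).1 he)
  have n2 : ‖((3 * e ^ 2 + A : ℤ) : ℤ_[q])‖ = 1 := by
    apply le_antisymm (PadicInt.norm_le_one _)
    by_contra h
    exact hde ((ZMod.intCast_zmod_eq_zero_iff_dvd _ q).2
      ((PadicInt.norm_int_lt_one_iff_dvd _).1 (not_le.1 h)))
  obtain ⟨z, hz0, hz1, -, -⟩ := hensels_lemma (p := q) (F := (X ^ 3 + C A * X + C B : ℤ[X]))
    (a := (e : ℤ_[q])) (by rw [h1, h2, n2]; simpa using n1)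
  rw [h2, n2] at hz1
  have hz2 : z ^ 3 + (A : ℤ_[q]) * z + (B : ℤ_[q]) = 0 := by
    have h3 : aeval z (X ^ 3 + C A * X + C B : ℤ[X]) =
      z ^ 3 + (A : ℤ_[q]) * z + (B : ℤ_[q]) := by
      simp
    rw [← h3]
    exact hz0
  have hz3 : PadicInt.toZMod z = (e : ZMod q) := by
    have h4 : z - (e : ℤ_[q]) ∈ RingHom.ker (PadicInt.toZMod : ℤ_[q] →+* ZMod q) := by
      rw [PadicInt.ker_toZMod, IsLocalRing.mem_maximalIdeal, PadicInt.mem_nonunits]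
      exact hz1
    rw [RingHom.mem_ker, map_sub, map_intCast, sub_eq_zero] at h4
    exact h4
  refine ⟨(z : ℚ_[q]), ?_, ?_⟩
  · exact_mod_cast congrArg (fun w : ℤ_[q] => (w : ℚ_[q])) hz2
  · intro n x S ⟨w, hw⟩
    have h5 : ∏ i ∈ S, ((x i : ℚ_[q]) - (z : ℚ_[q])) =
        ((∏ i ∈ S, ((x i : ℤ_[q]) - z) : ℤ_[q]) : ℚ_[q]) := by
      have h6 := map_prod (PadicInt.Coe.ringHom (p := q)) (fun i => ((x i : ℤ_[q]) - z)) S
      simp only [map_sub, map_intCast] at h6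
      exact h6.symm
    have h7 : ‖w‖ ≤ 1 := by
      have h8 : ‖w‖ * ‖w‖ ≤ 1 := by
        rw [← norm_mul, ← hw, h5]
        exact PadicInt.norm_le_one _
      by_contra h9
      have h10 : 1 < ‖w‖ := not_le.1 h9
      nlinarith
    obtain ⟨w', hw'⟩ : ∃ w' : ℤ_[q], (w' : ℚ_[q]) = w := ⟨⟨w, h7⟩, rfl⟩
    have h11 : ∏ i ∈ S, ((x i : ℤ_[q]) - z) = w' * w' := by
      apply Subtype.ext
      have h12 : ((∏ i ∈ S, ((x i : ℤ_[q]) - z) : ℤ_[q]) : ℚ_[q]) =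
          ((w' * w' : ℤ_[q]) : ℚ_[q]) := by
        rw [← h5, hw, PadicInt.coe_mul, hw']
      exact h12
    refine ⟨PadicInt.toZMod w', ?_⟩
    rw [← map_mul, ← h11, map_prod]
    apply Finset.prod_congr rfl
    intro i _
    rw [map_sub, map_intCast, hz3]
    push_cast
    rfl

end Pool.Agent.Helper97.RK
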