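import Pool.Agent.Helper97.RK.Stmts

set_option autoImplicit false

namespace Pool.Agent.Helper97.RK

theorem st_PTS : ST_PTS := by
  intro k p e2 e3 e4
  constructor
  · unfold cB
    ring
  · intro u h
    unfold rY cB cA cY rX cX
    linear_combination (324 * (p + 18 * u * (u + k) + 3 * (k ^ 2 + e2) + 6 * (k ^ 2 + e2))) * h

end Pool.Agent.Helper97.RK
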